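import Pool.Agent.X72.RSR.Stm

set_option autoImplicit false

open MeasureTheory ProbabilityTheory Filter Topology
open scoped ENNReal

namespace Pool.Agent.X271.RS

open Pool.Agent.X19.SS Pool.Agent.X72.RSR

theorem tr_gen {X : Type} [MeasurableSpace X] (γ : Measure X) [IsProbabilityMeasure γ] (m p : ℕ) :
    MeasurePreserving (fun (h : Fin m → Fin p → X) (a : Fin p) (k : Fin m) => h k a)
      (Measure.pi fun _ : Fin m => Measure.pi fun _ : Fin p => γ)
      (Measure.pi fun _ : Fin p => Measure.pi fun _ : Fin m => γ) := by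
  refine ⟨by fun_prop, ?_⟩
  have h1 := Measure.infinitePi_map_curry_symm (X := X) (fun (_ : Fin m) (_ : Fin p) => γ)
  have h2 := Measure.infinitePi_map_curry (X := X) (fun (_ : Fin p) (_ : Fin m) => γ)
  have h3 := Measure.infinitePi_map_piCongrLeft (X := fun _ : Fin p × Fin m => X)
    (μ := fun _ : Fin p × Fin m => γ) (Equiv.prodComm (Fin m) (Fin p))
  simp only [Measure.infinitePi_eq_pi] at h1 h2 h3
  rw [← h2, ← h3, ← h1, Measure.map_map (by fun_prop) (by fun_prop),
    Measure.map_map (by fun_prop) (by fun_prop)]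
  congr 1

theorem t_RT : S_RT := by
  intro K _ _ _ m p
  exact tr_gen (stdGaussian K) m p

end Pool.Agent.X271.RS
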